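import Mathlib

set_option autoImplicit false

open Set Filter Topology Function

namespace Pool.Agent.H.MP_0995d8_gt

def V : Type := ℕ →₀ ZMod 2

noncomputable instance : AddCommGroup V := inferInstanceAs (AddCommGroup (ℕ →₀ ZMod 2))
noncomputable instance : Module (ZMod 2) V := inferInstanceAs (Module (ZMod 2) (ℕ →₀ ZMod 2))
instance : Infinite V := inferInstanceAs (Infinite (ℕ →₀ ZMod 2))

noncomputable def j : V →+ (Module.Dual (ZMod 2) V → ZMod 2) :=
  ⟨⟨fun x d => d x, by ext; simp⟩, fun x y => by ext; simp⟩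

noncomputable instance : TopologicalSpace V := TopologicalSpace.induced j inferInstance
instance : IsTopologicalAddGroup V := topologicalAddGroup_induced j

noncomputable def p (n : ℕ) : Module.Dual (ZMod 2) V := Finsupp.lapply n

lemma p_ext {x y : V} (h : ∀ n, p n x = p n y) : x = y := Finsupp.ext h

instance : T2Space V :=
  IsEmbedding.t2Space (f := j) ⟨⟨rfl⟩, fun _ _ h => p_ext fun n => congrFun h (p n)⟩

lemma cont (d : Module.Dual (ZMod 2) V) : Continuous d :=
  (continuous_apply d).comp (continuous_induced_dom (f := j))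

lemma pre (U : Set V) (hU : U ∈ 𝓝 (0 : V)) :
    ∃ F : Set V, F.Finite ∧ ∀ g, ∃ f ∈ F, ∃ u ∈ U, f + u = g := by
  obtain ⟨W, hW, he⟩ := (mem_nhds_induced _ _ _).1 hU
  rw [nhds_pi, mem_pi'] at hW
  obtain ⟨F, t, ht, hF⟩ := hW
  let φ : V → F → ZMod 2 := fun x d => d.1 x
  refine ⟨range (invFun φ), finite_range _, fun g => ⟨_, ⟨φ g, rfl⟩, _, he (hF fun d hd => ?_),
    add_sub_cancel _ g⟩⟩
  have : d (invFun φ (φ g)) = d g := congrFun (invFun_eq (f := φ) ⟨g, rfl⟩) ⟨d, hd⟩
  simpa [j, this] using mem_of_mem_nhds (ht d)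

lemma fin {C : Set V} (hC : IsCompact C) : C.Finite := by
  classical
  obtain ⟨b, hb, hs, hl⟩ := exists_linearIndependent (ZMod 2) C
  by_cases h : b.Finite
  · have := Module.Finite.span_of_finite (ZMod 2) h
    have := Module.finite_of_finite (ZMod 2) (M := Submodule.span (ZMod 2) b)
    exact (toFinite (Submodule.span (ZMod 2) b : Set V)).subset (hs ▸ Submodule.subset_span)
  obtain ⟨c, -, hc⟩ := Set.Infinite.exists_accPt_cofinite_inf_principal_of_subset_isCompact h hC hb
  have hl' : LinearIndepOn (ZMod 2) id b := hl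
  let B := Module.Basis.extend hl'
  let χ : Module.Dual (ZMod 2) V :=
    B.constr (ZMod 2) fun i => if i ∈ (B.repr c).support then 0 else 1
  have h0 : χ c = 0 := by
    rw [Module.Basis.constr_apply]
    exact Finset.sum_eq_zero fun i hi => by simp only [hi, if_true, smul_zero]
  have h1 : ∀ᶠ x in cofinite ⊓ 𝓟 b, χ x = 1 := by
    filter_upwards [mem_inf_of_left ((B.repr c).support.finite_toSet.image
      Subtype.val).compl_mem_cofinite, mem_inf_of_right (mem_principal_self b)] with x h2 h3
    have h4 := hl'.subset_extend (subset_univ _) h3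
    rw [show x = B ⟨x, h4⟩ from (Module.Basis.extend_apply_self hl' ⟨x, h4⟩).symm,
      Module.Basis.constr_basis, if_neg]
    exact fun h5 => h2 ⟨_, h5, rfl⟩
  obtain ⟨x, h2, h3⟩ := ((hc.clusterPt.frequently' h1).and_eventually
    ((isOpen_discrete {0}).preimage (cont χ) |>.mem_nhds h0)).exists
  exact absurd (h3.symm.trans h2) zero_ne_one

theorem main (G : Type) [CommGroup G] [TopologicalSpace G]
    (hG : ∀ U ∈ 𝓝 (1 : G), ∃ F : Set G, F.Finite ∧ ∀ g, ∃ f ∈ F, ∃ u ∈ U, f * u = g)
    (e : G → PontryaginDual (PontryaginDual G)) (he : Continuous e) (he' : ∀ g χ, e g χ = χ g)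
    (f : G →* Multiplicative V) (hf : Continuous f) : ¬ Surjective f := by
  intro hs
  let χ : ℕ → PontryaginDual G := fun n =>
    ⟨⟨⟨fun g => ZMod.toCircle (p n (f g).toAdd), by simp⟩, fun x y => by
      simp [AddChar.map_add_eq_mul]⟩,
      (continuous_of_discreteTopology (f := ZMod.toCircle (N := 2))).comp ((cont (p n)).comp hf)⟩
  have h1 : Tendsto χ atTop (𝓝 1) := by
    refine (ContinuousMonoidHom.isInducing_toContinuousMap G Circle).tendsto_nhds_iff.2
      (ContinuousMap.tendsto_nhds_compactOpen.2 fun K hK U _ hU => ?_)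
    have : ∀ᶠ n in atTop, ∀ x ∈ (f '' K : Set V), p n x = 0 :=
      (eventually_all_finite (fin (hK.image hf))).2 fun x _ => by
        have := (Finsupp.support x).eventually_cofinite_notMem
        rw [Nat.cofinite_eq_atTop] at this
        exact this.mono fun n => Finsupp.notMem_support_iff.1
    filter_upwards [this] with n hn g hg
    have : χ n g = 1 := by
      show ZMod.toCircle (p n (f g).toAdd) = 1
      rw [show p n (f g).toAdd = 0 from hn _ ⟨g, hg, rfl⟩, AddChar.map_zero_eq_one]
    exact this ▸ hU hg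
  have h2 : IsOpen {g | MapsTo (e g) (insert 1 (range χ)) {ZMod.toCircle (1 : ZMod 2)}ᶜ} :=
    (isOpen_induced (ContinuousMap.isOpen_setOfPred_mapsTo h1.isCompact_insert_range
      isOpen_compl_singleton)).preimage he
  obtain ⟨F, hF, hF'⟩ := hG _ (h2.mem_nhds fun ψ _ => by
    rw [he', map_one ψ, ← AddChar.map_zero_eq_one (ZMod.toCircle (N := 2))]
    exact fun h => zero_ne_one (ZMod.injective_toCircle h))
  refine infinite_univ (α := V) ((hF.image f).subset fun x _ => ?_)
  obtain ⟨g, rfl⟩ := hs x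
  obtain ⟨a, ha, u, hu, rfl⟩ := hF' g
  have : (f u).toAdd = 0 := p_ext fun n => by
    have := hu (Or.inr ⟨n, rfl⟩)
    rw [he'] at this
    rw [map_zero]
    exact ((by decide : ∀ c : ZMod 2, c = 0 ∨ c = 1) _).resolve_right fun h =>
      this (congrArg ZMod.toCircle h)
  exact ⟨a, ha, by rw [map_mul, show f u = 1 from this, mul_one]⟩

end Pool.Agent.H.MP_0995d8_gt
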